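import Mathlib

/-!
# Euler's formula with divided derivatives

For a form `G` of degree `D`, `(D.choose l) G` is a combination of the monomials of degree `l` with
the divided derivatives of order `l` of `G` as coefficients; these lower orders by `l` at most.
-/

set_option autoImplicit false

namespace Pool.Agent.Lib.P5aaf1bX

open MvPolynomial

section

variable {σ : Type*} {k : Type*} [Field k]

/-- `G(x + y)` -/
noncomputable def tay : MvPolynomial σ k →+* MvPolynomial σ (MvPolynomial σ k) :=
  eval₂Hom (C.comp C) (fun i => C (X i) + X i)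

theorem coeff_zero_tay (G : MvPolynomial σ k) : coeff 0 (tay G) = G := by
  have h : (constantCoeff (R := MvPolynomial σ k) (σ := σ)).comp tay =
      RingHom.id (MvPolynomial σ k) := by
    apply MvPolynomial.ringHom_ext
    · intro r
      simp [tay]
    · intro i
      simp [tay]
  have h1 := RingHom.congr_fun h G
  simpa [constantCoeff_eq] using h1

theorem tay_coeff_mem (J : Ideal (MvPolynomial σ k)) (m : ℕ) :
    ∀ g ∈ J ^ m, ∀ a : σ →₀ ℕ, coeff a (tay g) ∈ J ^ (m - a.degree) := by
  induction m with
  | zero =>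
    intro g _ a
    rw [Nat.zero_sub, pow_zero, Ideal.one_eq_top]
    trivial
  | succ m ih =>
    intro g hg
    rw [pow_succ] at hg
    induction hg using Submodule.mul_induction_on' with
    | mem_mul_mem x hx y hy =>
      intro a
      classical
      rw [map_mul, coeff_mul]
      apply Ideal.sum_mem
      rintro ⟨b, c⟩ hbc
      rw [Finset.HasAntidiagonal.mem_antidiagonal] at hbc
      have h1 := ih x hx b
      have hdeg : b.degree + c.degree = a.degree := by
        rw [← hbc]
        exact (map_add Finsupp.degree b c).symm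
      by_cases hc : c = 0
      · subst hc
        rw [coeff_zero_tay]
        have h2 : (0 : σ →₀ ℕ).degree = 0 := map_zero Finsupp.degree
        have h3 := Ideal.mul_mem_mul h1 hy
        rw [← pow_succ] at h3
        exact Ideal.pow_le_pow_right (by omega) h3
      · have hc1 : 1 ≤ c.degree := by
          rw [Nat.one_le_iff_ne_zero]
          intro h0
          exact hc ((Finsupp.degree_eq_zero_iff c).1 h0)
        exact Ideal.mul_mem_right _ _ (Ideal.pow_le_pow_right (by omega) h1)
    | add x _ y _ hx hy =>
      intro a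
      rw [map_add, coeff_add]
      exact Ideal.add_mem _ (hx a) (hy a)

/-- `y = λ x` -/
noncomputable def dil : MvPolynomial σ (MvPolynomial σ k) →+* Polynomial (MvPolynomial σ k) :=
  eval₂Hom Polynomial.C (fun i => Polynomial.C (X i) * Polynomial.X)

theorem dil_tay {G : MvPolynomial σ k} {D : ℕ} (hG : G.IsHomogeneous D) :
    dil (tay G) = (1 + Polynomial.X) ^ D * Polynomial.C G := by
  have h1 : (dil.comp tay : MvPolynomial σ k →+* Polynomial (MvPolynomial σ k)) =
      eval₂Hom (Polynomial.C.comp C) (fun i => (1 + Polynomial.X) * Polynomial.C (X i)) := by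
    apply MvPolynomial.ringHom_ext
    · intro r
      simp [tay, dil]
    · intro i
      simp [tay, dil]
      ring
  have h2 : dil (tay G) =
      eval₂Hom (Polynomial.C.comp C) (fun i => (1 + Polynomial.X) * Polynomial.C (X i)) G :=
    RingHom.congr_fun h1 G
  rw [h2]
  conv_lhs => rw [G.as_sum]
  conv_rhs => rw [G.as_sum]
  rw [map_sum, map_sum, Finset.mul_sum]
  apply Finset.sum_congr rfl
  intro d hd
  have hd1 : d.degree = D := by
    have h3 := hG (mem_support_iff.1 hd)
    rw [← h3, Finsupp.degree_eq_weight_one]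
    rfl
  rw [coe_eval₂Hom, eval₂_monomial, monomial_eq, map_mul, Finsupp.prod, Finsupp.prod, map_prod]
  simp_rw [mul_pow, Finset.prod_mul_distrib, map_pow]
  rw [Finset.prod_pow_eq_pow_sum, ← hd1]
  have h3 : ∑ i ∈ d.support, d i = d.degree := rfl
  rw [h3]
  simp only [RingHom.comp_apply]
  ring

theorem dil_coeff (Z : MvPolynomial σ (MvPolynomial σ k)) (l : ℕ) :
    (dil Z).coeff l = ∑ a ∈ Z.support, if a.degree = l then coeff a Z * monomial a 1 else 0 := by
  conv_lhs => rw [Z.as_sum]
  rw [map_sum, Polynomial.finsetSum_coeff]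
  apply Finset.sum_congr rfl
  intro a _
  rw [dil, coe_eval₂Hom, eval₂_monomial, Finsupp.prod]
  simp_rw [mul_pow, Finset.prod_mul_distrib]
  rw [Finset.prod_pow_eq_pow_sum]
  have h3 : ∑ i ∈ a.support, a i = a.degree := rfl
  have h4 : ∏ i ∈ a.support, (Polynomial.C (X i : MvPolynomial σ k)) ^ a i =
      Polynomial.C (monomial a 1) := by
    rw [monomial_eq, C_1, one_mul, Finsupp.prod, map_prod]
    simp_rw [map_pow]
  rw [h3, h4, ← mul_assoc, ← Polynomial.C_mul, Polynomial.coeff_C_mul_X_pow]
  simp only [eq_comm]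

theorem monomial_mem_vars_pow (a : σ →₀ ℕ) :
    (monomial a (1 : k) : MvPolynomial σ k) ∈ idealOfVars σ k ^ a.degree := by
  rw [monomial_eq, C_1, one_mul, Finsupp.prod]
  have h3 : a.degree = ∑ i ∈ a.support, a i := rfl
  rw [h3, ← Finset.prod_pow_eq_pow_sum]
  apply Ideal.prod_mem_prod
  intro i _
  apply Ideal.pow_mem_pow
  unfold idealOfVars
  exact Ideal.subset_span ⟨i, rfl⟩

/-- Euler's formula of order `l` -/
theorem choose_mul_mem {G : MvPolynomial σ k} {D l : ℕ} (hG : G.IsHomogeneous D)
    {ι : Type*} {J : ι → Ideal (MvPolynomial σ k)} {N : ι → ℕ}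
    (h : ∀ i, 1 ≤ N i → G ∈ J i ^ (N i + l)) :
    ((D.choose l : ℕ) : MvPolynomial σ k) * G ∈ idealOfVars σ k ^ l * ⨅ i, J i ^ N i := by
  have h1 := congrArg (fun Q => Polynomial.coeff Q l) (dil_tay hG)
  simp only [Polynomial.coeff_mul_C, Polynomial.coeff_one_add_X_pow] at h1
  rw [← h1, dil_coeff]
  apply Ideal.sum_mem
  intro a _
  split_ifs with ha
  · rw [mul_comm]
    apply Ideal.mul_mem_mul
    · rw [Ideal.mem_iInf]
      intro i
      rcases Nat.eq_zero_or_pos (N i) with h0 | h0
      · rw [h0, pow_zero, Ideal.one_eq_top]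
        trivial
      · have h2 := tay_coeff_mem (J i) _ G (h i h0) a
        rwa [ha, Nat.add_sub_cancel] at h2
    · rw [← ha]
      exact monomial_mem_vars_pow a
  · exact Ideal.zero_mem _

end

end Pool.Agent.Lib.P5aaf1bX
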