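import Mathlib
import Pool.Agent.Lib.P5aaf1b.Defs
import Pool.Agent.Lib.P5aaf1b.Main1

/-!
# Raising multiplicities over any field (MP_5aaf1b_ag)

`gap_frac` with `r = 1` says that raising all positive multiplicities by `n - 1` puts a factor `𝔪`
in front, in every characteristic; for forms of degree prime to the characteristic raising by one
is enough (Euler's formula). Going down `s` degrees one meets at most `⌈s / p⌉` multiples of `p`.
-/

set_option autoImplicit false

namespace Pool.Agent.Lib.P5aaf1bX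

open MvPolynomial Pool.Agent.Lib.Chud Pool.Agent.Lib.P5c592f Pool.Agent.Lib.P5aaf1b

universe u

section comp

variable {σ : Type*} {k : Type u} [Field k]

theorem comp_vars_mul {J W : Ideal (MvPolynomial σ k)} {d : ℕ}
    (h : ∀ b ∈ J, ∀ i, i + 1 = d → homogeneousComponent i b ∈ W)
    {x : MvPolynomial σ k} (hx : x ∈ idealOfVars σ k * J) :
    homogeneousComponent d x ∈ idealOfVars σ k * W := by
  induction hx using Submodule.mul_induction_on' with
  | mem_mul_mem a ha b hb =>
    have key : ∀ c ∈ J, homogeneousComponent d (c * a) ∈ idealOfVars σ k * W := by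
      unfold idealOfVars at ha
      induction ha using Submodule.span_induction with
      | mem a ha =>
        obtain ⟨j, rfl⟩ := ha
        intro c hc
        rw [homogeneousComponent_mul_of_hom (isHomogeneous_X k j)]
        apply Ideal.sum_mem
        intro i _
        split_ifs with hi
        · rw [mul_comm (homogeneousComponent i c) (X j)]
          exact Ideal.mul_mem_mul (Ideal.subset_span ⟨j, rfl⟩) (h c hc i hi.symm)
        · exact Ideal.zero_mem _
      | zero => intro c _; rw [mul_zero, map_zero]; exact Ideal.zero_mem _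
      | add x y _ _ hx hy =>
        intro c hc
        rw [mul_add, map_add]
        exact Ideal.add_mem _ (hx c hc) (hy c hc)
      | smul y x _ hx =>
        intro c hc
        rw [smul_eq_mul, ← mul_assoc]
        exact hx _ (Ideal.mul_mem_right _ _ hc)
    rw [mul_comm a b]
    exact key b hb
  | add a _ b _ ha hb => rw [map_add]; exact Ideal.add_mem _ ha hb

end comp

variable {k : Type u} [Field k] {n : ℕ} {ι : Type*} [Fintype ι] {v : ι → Fin (n + 1) → k}

/-- `gap_frac` for all polynomials -/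
theorem gap_frac' (hn : 2 ≤ n) (hv : ∀ i, v i ≠ 0) {μ : ι → ℕ} (hμ : ∃ i, 1 ≤ μ i) {r : ℕ}
    (hr : 1 ≤ r) {F : MvPolynomial (Fin (n + 1)) k}
    (hmem : ∀ i, 1 ≤ μ i → F ∈ Iv (v i) ^ (r * (μ i + n - 1))) :
    F ∈ idealOfVars (Fin (n + 1)) k ^ ((r + n - 1) / n) * (⨅ i, Iv (v i) ^ μ i) ^ r := by
  rw [← sum_homogeneousComponent F]
  apply Ideal.sum_mem
  intro d _
  exact gap_frac hn hv hμ hr (homogeneousComponent_isHomogeneous d F) fun i hi =>
    component_mem (isHomogeneous_pow (isHomogeneous_Iv _) _) (hmem i hi) d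

/-- the raised multiplicities -/
def up (μ : ι → ℕ) (c : ℕ) : ι → ℕ := fun i => if μ i = 0 then 0 else μ i + c

omit [Fintype ι] in
theorem up_pos {μ : ι → ℕ} (hμ : ∃ i, 1 ≤ μ i) (c : ℕ) : ∃ i, 1 ≤ up μ c i := by
  obtain ⟨i, hi⟩ := hμ
  refine ⟨i, ?_⟩
  rw [up, if_neg (by omega)]
  omega

omit [Fintype ι] in
theorem up_of_pos {μ : ι → ℕ} {c : ℕ} {i : ι} (hi : 1 ≤ up μ c i) : 1 ≤ μ i ∧
    up μ c i = μ i + c := by
  unfold up at hi ⊢
  split_ifs at hi ⊢ with h
  · omega
  · omega

omit [Fintype ι] in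
theorem mem_iInf_of {μ : ι → ℕ} {F : MvPolynomial (Fin (n + 1)) k}
    (h : ∀ i, 1 ≤ μ i → F ∈ Iv (v i) ^ μ i) : F ∈ ⨅ i, Iv (v i) ^ μ i := by
  rw [Ideal.mem_iInf]
  intro i
  rcases Nat.eq_zero_or_pos (μ i) with h0 | h0
  · rw [h0, pow_zero, Ideal.one_eq_top]
    trivial
  · exact h i h0

/-- forms of degree `d`: going down `s` degrees costs `s`, and `n - 2` more for every multiple of
the characteristic which is passed -/
theorem raise_hom (p : ℕ) [CharP k p] (hn : 2 ≤ n) (hv : ∀ i, v i ≠ 0) {μ : ι → ℕ}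
    (hμ : ∃ i, 1 ≤ μ i) (s : ℕ) :
    ∀ (d : ℕ) (g : MvPolynomial (Fin (n + 1)) k), g.IsHomogeneous d →
      (∀ i, 1 ≤ μ i → g ∈ Iv (v i) ^ (μ i + s + (n - 2) * (d / p - (d - s) / p))) →
      g ∈ idealOfVars (Fin (n + 1)) k ^ s * ⨅ i, Iv (v i) ^ μ i := by
  induction s with
  | zero =>
    intro d g _ hmem
    rw [pow_zero, one_mul]
    apply mem_iInf_of
    intro i hi
    have := hmem i hi
    rwa [Nat.sub_zero, Nat.sub_self, mul_zero, add_zero, add_zero] at this
  | succ s ih =>
    intro d g hg hmem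
    by_cases hg0 : g = 0
    · rw [hg0]; exact Ideal.zero_mem _
    obtain ⟨i₀, hi₀⟩ := hμ
    have hd : 1 ≤ d := by
      have h2 := (mem_Iv_pow_nord (hv i₀) hg hg0).1 (hmem i₀ hi₀)
      have h3 := nord_le (hv i₀) hg hg0
      omega
    obtain ⟨d', rfl⟩ : ∃ d', d = d' + 1 := ⟨d - 1, by omega⟩
    have hsub : d' + 1 - (s + 1) = d' - s := by omega
    rw [hsub] at hmem
    have hle : (d' - s) / p ≤ d' / p := Nat.div_le_div_right (by omega)
    by_cases hp : p ∣ d' + 1
    · -- the degree is divisible by the characteristic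
      have hdiv : (d' + 1) / p = d' / p + 1 := by
        rw [Nat.succ_div, if_pos hp]
      set z := d' / p - (d' - s) / p with hz
      have hz' : (d' + 1) / p - (d' - s) / p = z + 1 := by rw [hdiv]; omega
      rw [hz'] at hmem
      have h1 := gap_frac' hn hv (up_pos ⟨i₀, hi₀⟩ (s + (n - 2) * z)) (r := 1) le_rfl (F := g) (by
        intro i hi
        obtain ⟨hi1, hi2⟩ := up_of_pos hi
        have h3 := hmem i hi1
        rw [hi2]
        have e : 1 * (μ i + (s + (n - 2) * z) + n - 1) = μ i + (s + 1) + (n - 2) * (z + 1) := by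
          have : (n - 2) * (z + 1) = (n - 2) * z + (n - 2) := by ring
          omega
        rw [e]
        exact h3)
      have e : (1 + n - 1) / n = 1 := by
        rw [Nat.add_sub_cancel_left]
        exact Nat.div_self (by omega)
      rw [e, pow_one, pow_one] at h1
      have h2 := comp_vars_mul (d := d' + 1)
        (W := idealOfVars (Fin (n + 1)) k ^ s * ⨅ i, Iv (v i) ^ μ i) (by
          intro b hb j hj
          obtain rfl : j = d' := by omega
          apply ih j _ (homogeneousComponent_isHomogeneous j b)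
          intro i hi
          rw [Ideal.mem_iInf] at hb
          have h3 := hb i
          rw [up, if_neg (by omega)] at h3
          rw [← hz, add_assoc]
          exact component_mem (isHomogeneous_pow (isHomogeneous_Iv _) _) h3 j) h1
      rw [homogeneousComponent_of_mem hg, if_pos rfl] at h2
      rwa [pow_succ', mul_assoc]
    · -- Euler
      have hdiv : (d' + 1) / p = d' / p := by
        rw [Nat.succ_div, if_neg hp, add_zero]
      rw [hdiv] at hmem
      have hder : ∀ j, pderiv j g ∈ idealOfVars (Fin (n + 1)) k ^ s * ⨅ i, Iv (v i) ^ μ i := by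
        intro j
        apply ih d'
        · have := hg.pderiv (i := j)
          rwa [Nat.add_sub_cancel] at this
        · intro i hi
          apply pderiv_mem_pow
          have h3 := hmem i hi
          have e : μ i + (s + 1) + (n - 2) * (d' / p - (d' - s) / p) =
              μ i + s + (n - 2) * (d' / p - (d' - s) / p) + 1 := by ring
          rwa [e] at h3
      have h1 : ((d' + 1 : ℕ) : MvPolynomial (Fin (n + 1)) k) * g ∈
          idealOfVars (Fin (n + 1)) k *
            (idealOfVars (Fin (n + 1)) k ^ s * ⨅ i, Iv (v i) ^ μ i) := by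
        rw [← nsmul_eq_mul, ← hg.sum_X_mul_pderiv]
        apply Ideal.sum_mem
        intro j _
        exact Ideal.mul_mem_mul (Ideal.subset_span ⟨j, rfl⟩) (hder j)
      have hdk : ((d' + 1 : ℕ) : k) ≠ 0 := by
        rw [Ne, CharP.cast_eq_zero_iff k p]
        exact hp
      have h2 := Ideal.mul_mem_left _ (C ((d' + 1 : ℕ) : k)⁻¹) h1
      have h3 : ((d' + 1 : ℕ) : MvPolynomial (Fin (n + 1)) k) = C ((d' + 1 : ℕ) : k) := by simp
      rw [h3, ← mul_assoc (C ((d' + 1 : ℕ) : k)⁻¹), ← C_mul, inv_mul_cancel₀ hdk, C_1,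
        one_mul] at h2
      rwa [pow_succ', mul_assoc]

theorem div_bound (d s p : ℕ) : d / p - (d - s) / p ≤ (s + p - 1) / p := by
  rcases Nat.eq_zero_or_pos p with rfl | hp
  · simp
  have h1 : s ≤ p * ((s + p - 1) / p) := by
    have := Nat.lt_mul_div_succ (s + p - 1) hp
    have e : p * ((s + p - 1) / p + 1) = p * ((s + p - 1) / p) + p := by ring
    omega
  have h2 : d / p ≤ ((d - s) + p * ((s + p - 1) / p)) / p := Nat.div_le_div_right (by omega)
  rw [Nat.add_mul_div_left _ _ hp] at h2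
  exact tsub_le_iff_left.2 h2

/-- the cost of `s` factors `𝔪` -/
def cost (n p s : ℕ) : ℕ := s + (n - 2) * ((s + p - 1) / p)

/-- raising all positive multiplicities by `cost n p s` puts a factor `𝔪 ^ s` in front -/
theorem raise (p : ℕ) [CharP k p] (hn : 2 ≤ n) (hv : ∀ i, v i ≠ 0) {μ : ι → ℕ}
    (hμ : ∃ i, 1 ≤ μ i) (s : ℕ) :
    (⨅ i, Iv (v i) ^ up μ (cost n p s) i) ≤
      idealOfVars (Fin (n + 1)) k ^ s * ⨅ i, Iv (v i) ^ μ i := by
  intro F hF
  rw [← sum_homogeneousComponent F]
  apply Ideal.sum_mem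
  intro d _
  apply raise_hom p hn hv hμ s d _ (homogeneousComponent_isHomogeneous d F)
  intro i hi
  rw [Ideal.mem_iInf] at hF
  have h1 := hF i
  rw [up, if_neg (by omega)] at h1
  have h2 := component_mem (isHomogeneous_pow (isHomogeneous_Iv _) _) h1 d
  refine Ideal.pow_le_pow_right ?_ h2
  have h3 : (n - 2) * (d / p - (d - s) / p) ≤ (n - 2) * ((s + p - 1) / p) :=
    Nat.mul_le_mul_left _ (div_bound d s p)
  unfold cost
  omega

/-- the general bound -/
theorem surplus (p : ℕ) [CharP k p] (hn : 2 ≤ n) (hv : ∀ i, v i ≠ 0) {μ : ι → ℕ}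
    (hμ : ∃ i, 1 ≤ μ i) {r : ℕ} (hr : 1 ≤ r) (s : ℕ) {F : MvPolynomial (Fin (n + 1)) k}
    (hmem : ∀ i, 1 ≤ μ i → F ∈ Iv (v i) ^ (r * (μ i + cost n p s + (n - 1)))) :
    F ∈ idealOfVars (Fin (n + 1)) k ^ (r * s + (r + n - 1) / n) * (⨅ i, Iv (v i) ^ μ i) ^ r := by
  have h1 := gap_frac' hn hv (up_pos hμ (cost n p s)) hr (F := F) (by
    intro i hi
    obtain ⟨hi1, hi2⟩ := up_of_pos hi
    have h2 := hmem i hi1
    rw [hi2]
    have e : μ i + cost n p s + n - 1 = μ i + cost n p s + (n - 1) := by omega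
    rw [e]
    exact h2)
  have h3 : (⨅ i, Iv (v i) ^ up μ (cost n p s) i) ^ r ≤
      idealOfVars (Fin (n + 1)) k ^ (r * s) * (⨅ i, Iv (v i) ^ μ i) ^ r := by
    refine (Ideal.pow_right_mono (raise p hn hv hμ s) r).trans ?_
    rw [mul_pow, ← pow_mul, mul_comm s r]
  have h4 := Ideal.mul_mono (le_refl (idealOfVars (Fin (n + 1)) k ^ ((r + n - 1) / n))) h3 h1
  rwa [← mul_assoc, ← pow_add, add_comm ((r + n - 1) / n) (r * s)] at h4

end Pool.Agent.Lib.P5aaf1bX
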