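import Mathlib

/-!
# Binomial coefficients prime to `p` around the most divisible number of a window
-/

set_option autoImplicit false

namespace Pool.Agent.Lib.P5aaf1bX

theorem not_dvd_of_prod {p : ℕ} (hp : p.Prime) {t c : ℕ} {a b : ℕ → ℕ}
    (ha : ∀ i ∈ Finset.range t, a i ≠ 0) (hb : ∀ i ∈ Finset.range t, b i ≠ 0)
    (hab : ∀ i ∈ Finset.range t, (a i).factorization p ≤ (b i).factorization p)
    (h : ∏ i ∈ Finset.range t, a i = (∏ i ∈ Finset.range t, b i) * c) : ¬ p ∣ c := by
  have hA : ∏ i ∈ Finset.range t, a i ≠ 0 := Finset.prod_ne_zero_iff.2 ha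
  have hB : ∏ i ∈ Finset.range t, b i ≠ 0 := Finset.prod_ne_zero_iff.2 hb
  have hc : c ≠ 0 := by
    rintro rfl
    rw [mul_zero] at h
    exact hA h
  have h1 : (∏ i ∈ Finset.range t, a i).factorization p =
      ∑ i ∈ Finset.range t, (a i).factorization p := by
    rw [Nat.factorization_prod ha, Finsupp.finsetSum_apply]
  have h2 : (∏ i ∈ Finset.range t, b i).factorization p =
      ∑ i ∈ Finset.range t, (b i).factorization p := by
    rw [Nat.factorization_prod hb, Finsupp.finsetSum_apply]
  have h3 : ((∏ i ∈ Finset.range t, b i) * c).factorization p =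
      (∏ i ∈ Finset.range t, b i).factorization p + c.factorization p := by
    rw [Nat.factorization_mul hB hc, Finsupp.add_apply]
  have h4 := Finset.sum_le_sum hab
  rw [← h1, ← h2, h, h3] at h4
  intro hdvd
  have h5 := hp.factorization_pos_of_dvd hc hdvd
  omega

theorem fac_le {p x y i : ℕ} (hp : p.Prime) (hi : i ≠ 0)
    (hle : y.factorization p ≤ x.factorization p)
    (h : x + i = y ∨ y + i = x) : y.factorization p ≤ i.factorization p := by
  have h1 : p ^ y.factorization p ∣ y := Nat.ordProj_dvd y p
  have h2 : p ^ y.factorization p ∣ x := (pow_dvd_pow p hle).trans (Nat.ordProj_dvd x p)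
  have h3 : p ^ y.factorization p ∣ i := by
    rcases h with h | h
    · rw [← h] at h1
      rw [← h]
      exact (Nat.dvd_add_right (by rw [← h] at h2; exact h2)).1 h1
    · rw [← h] at h2
      exact (Nat.dvd_add_right h1).1 h2
  exact (hp.pow_dvd_iff_le_factorization hi).1 h3

/-- in every window `(D - s, D]` there is an `x` such that `D.choose (D - x)` and
`(x - 1).choose (x - 1 - (D - s))` are prime to `p` -/
theorem window {p : ℕ} (hp : p.Prime) {D s : ℕ} (hs : 1 ≤ s) (hD : s ≤ D) :
    ∃ x l t, x + l = D ∧ s = l + 1 + t ∧ 1 ≤ x ∧ t ≤ x - 1 ∧ ¬ p ∣ D.choose l ∧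
      ¬ p ∣ (x - 1).choose t := by
  obtain ⟨x, hx, hmax⟩ := Finset.exists_max_image (Finset.Icc (D - s + 1) D)
    (fun x => x.factorization p) ⟨D, by rw [Finset.mem_Icc]; omega⟩
  rw [Finset.mem_Icc] at hx
  refine ⟨x, D - x, x - 1 - (D - s), by omega, by omega, by omega, by omega, ?_, ?_⟩
  · have h1 := Nat.descFactorial_eq_factorial_mul_choose D (D - x)
    rw [← Nat.descFactorial_self (D - x), Nat.descFactorial_eq_prod_range,
      Nat.descFactorial_eq_prod_range] at h1
    refine not_dvd_of_prod hp (fun i hi => ?_) (fun i hi => ?_) (fun i hi => ?_) h1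
    · rw [Finset.mem_range] at hi; omega
    · rw [Finset.mem_range] at hi; omega
    · rw [Finset.mem_range] at hi
      refine fac_le (x := x) hp (by omega) (hmax _ ?_) (Or.inl (by omega))
      rw [Finset.mem_Icc]
      omega
  · have h1 := Nat.descFactorial_eq_factorial_mul_choose (x - 1) (x - 1 - (D - s))
    rw [← Finset.prod_range_add_one_eq_factorial, Nat.descFactorial_eq_prod_range] at h1
    refine not_dvd_of_prod hp (fun i hi => ?_) (fun i hi => ?_) (fun i hi => ?_) h1
    · rw [Finset.mem_range] at hi; omega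
    · omega
    · rw [Finset.mem_range] at hi
      refine fac_le (x := x) hp (by omega) (hmax _ ?_) (Or.inr (by omega))
      rw [Finset.mem_Icc]
      omega

end Pool.Agent.Lib.P5aaf1bX
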