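import Mathlib
import Pool.Agent.Lib.P5aaf1bX.Surplus
import Pool.Agent.Lib.P5aaf1bX.Hasse
import Pool.Agent.Lib.P5aaf1bX.Window

/-!
# Raising multiplicities over any field, with divided derivatives (MP_5aaf1b_ag)

Raising all positive multiplicities by `s + (n - 2)` puts a factor `𝔪 ^ s` in front, in every
characteristic.
-/

set_option autoImplicit false

namespace Pool.Agent.Lib.P5aaf1bX

open MvPolynomial Pool.Agent.Lib.Chud Pool.Agent.Lib.P5c592f Pool.Agent.Lib.P5aaf1b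

universe u

theorem comp_vars_pow_mul {σ : Type*} {k : Type u} [Field k] {J W : Ideal (MvPolynomial σ k)}
    (l : ℕ) : ∀ (d : ℕ) (_ : ∀ b ∈ J, ∀ i, i + l = d → homogeneousComponent i b ∈ W)
    (x : MvPolynomial σ k) (_ : x ∈ idealOfVars σ k ^ l * J),
    homogeneousComponent d x ∈ idealOfVars σ k ^ l * W := by
  induction l with
  | zero =>
    intro d h x hx
    rw [pow_zero, one_mul] at hx ⊢
    exact h x hx d (by omega)
  | succ l ih =>
    intro d h x hx
    rw [pow_succ', mul_assoc] at hx ⊢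
    apply comp_vars_mul _ hx
    intro b hb i hi
    apply ih i _ b hb
    intro c hc j hj
    exact h c hc j (by omega)

variable {k : Type u} [Field k] {n : ℕ} {ι : Type*} [Fintype ι] {v : ι → Fin (n + 1) → k}

omit [Fintype ι] in
/-- a step of length `l` -/
theorem good {N : ι → ℕ} {D l : ℕ} {G : MvPolynomial (Fin (n + 1)) k} (hG : G.IsHomogeneous D)
    (hne : ((D.choose l : ℕ) : k) ≠ 0)
    (hmem : ∀ i, 1 ≤ N i → G ∈ Iv (v i) ^ (N i + l)) :
    G ∈ idealOfVars (Fin (n + 1)) k ^ l * ⨅ i, Iv (v i) ^ N i := by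
  have h1 := choose_mul_mem hG (J := fun i => Iv (v i)) (N := N) hmem
  have h2 := Ideal.mul_mem_left _ (C ((D.choose l : ℕ) : k)⁻¹) h1
  have h3 : ((D.choose l : ℕ) : MvPolynomial (Fin (n + 1)) k) = C ((D.choose l : ℕ) : k) := by
    simp
  rwa [h3, ← mul_assoc (C ((D.choose l : ℕ) : k)⁻¹), ← C_mul, inv_mul_cancel₀ hne, C_1,
    one_mul] at h2

theorem raise_form (p : ℕ) [CharP k p] (hn : 2 ≤ n) (hv : ∀ i, v i ≠ 0) {μ : ι → ℕ}
    (hμ : ∃ i, 1 ≤ μ i) {s : ℕ} (hs : 1 ≤ s) {D : ℕ} {G : MvPolynomial (Fin (n + 1)) k}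
    (hG : G.IsHomogeneous D) (hmem : ∀ i, 1 ≤ μ i → G ∈ Iv (v i) ^ (μ i + s + (n - 2))) :
    G ∈ idealOfVars (Fin (n + 1)) k ^ s * ⨅ i, Iv (v i) ^ μ i := by
  by_cases hG0 : G = 0
  · rw [hG0]; exact Ideal.zero_mem _
  have hD : s ≤ D := by
    obtain ⟨i₀, hi₀⟩ := hμ
    have h2 := (mem_Iv_pow_nord (hv i₀) hG hG0).1 (hmem i₀ hi₀)
    have h3 := nord_le (hv i₀) hG hG0
    omega
  rcases CharP.char_is_prime_or_zero k p with hp | hp
  · obtain ⟨x, l, t, hx, hs', hx1, htx, hl, ht⟩ := window hp hs hD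
    have hlk : ((D.choose l : ℕ) : k) ≠ 0 := by
      rw [Ne, CharP.cast_eq_zero_iff k p]
      exact hl
    have htk : (((x - 1).choose t : ℕ) : k) ≠ 0 := by
      rw [Ne, CharP.cast_eq_zero_iff k p]
      exact ht
    -- the last step
    have step3 : ∀ b ∈ ⨅ i, Iv (v i) ^ up μ t i, ∀ j, j + 1 = x →
        homogeneousComponent j b ∈ idealOfVars (Fin (n + 1)) k ^ t * ⨅ i, Iv (v i) ^ μ i := by
      intro b hb j hj
      obtain rfl : j = x - 1 := by omega
      apply good (homogeneousComponent_isHomogeneous _ b) htk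
      intro i hi
      rw [Ideal.mem_iInf] at hb
      have h3 := hb i
      rw [up, if_neg (by omega)] at h3
      exact component_mem (isHomogeneous_pow (isHomogeneous_Iv _) _) h3 _
    -- the bad step
    have step2 : ∀ b ∈ ⨅ i, Iv (v i) ^ up μ (1 + t + (n - 2)) i, ∀ j, j + l = D →
        homogeneousComponent j b ∈ idealOfVars (Fin (n + 1)) k *
          (idealOfVars (Fin (n + 1)) k ^ t * ⨅ i, Iv (v i) ^ μ i) := by
      intro b hb j hj
      obtain rfl : j = x := by omega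
      have h1 := gap_frac' hn hv (up_pos hμ t) (r := 1) le_rfl (F := b) (by
        intro i hi
        obtain ⟨hi1, hi2⟩ := up_of_pos hi
        rw [Ideal.mem_iInf] at hb
        have h3 := hb i
        rw [up, if_neg (by omega)] at h3
        rw [hi2]
        have e : 1 * (μ i + t + n - 1) = μ i + (1 + t + (n - 2)) := by omega
        rw [e]
        exact h3)
      have e : (1 + n - 1) / n = 1 := by
        rw [Nat.add_sub_cancel_left]
        exact Nat.div_self (by omega)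
      rw [e, pow_one, pow_one] at h1
      exact comp_vars_mul step3 h1
    -- the first step
    have h1 : G ∈ idealOfVars (Fin (n + 1)) k ^ l *
        ⨅ i, Iv (v i) ^ up μ (1 + t + (n - 2)) i := by
      apply good hG hlk
      intro i hi
      obtain ⟨hi1, hi2⟩ := up_of_pos hi
      rw [hi2]
      have e : μ i + (1 + t + (n - 2)) + l = μ i + s + (n - 2) := by omega
      rw [e]
      exact hmem i hi1
    have h2 := comp_vars_pow_mul l D step2 G h1
    rw [homogeneousComponent_of_mem hG, if_pos rfl] at h2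
    rwa [hs', pow_add, pow_add, pow_one, mul_assoc, mul_assoc]
  · subst hp
    have hsk : ((D.choose s : ℕ) : k) ≠ 0 := by
      rw [Ne, CharP.cast_eq_zero_iff k 0, zero_dvd_iff]
      exact (Nat.choose_pos hD).ne'
    apply good hG hsk
    intro i hi
    exact Ideal.pow_le_pow_right (Nat.le_add_right _ _) (hmem i hi)

/-- raising all positive multiplicities by `s + (n - 2)` puts a factor `𝔪 ^ s` in front -/
theorem raise_all (p : ℕ) [CharP k p] (hn : 2 ≤ n) (hv : ∀ i, v i ≠ 0) {μ : ι → ℕ}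
    (hμ : ∃ i, 1 ≤ μ i) {s : ℕ} (hs : 1 ≤ s) :
    (⨅ i, Iv (v i) ^ up μ (s + (n - 2)) i) ≤
      idealOfVars (Fin (n + 1)) k ^ s * ⨅ i, Iv (v i) ^ μ i := by
  intro F hF
  rw [← sum_homogeneousComponent F]
  apply Ideal.sum_mem
  intro d _
  apply raise_form p hn hv hμ hs (homogeneousComponent_isHomogeneous d F)
  intro i hi
  rw [Ideal.mem_iInf] at hF
  have h1 := hF i
  rw [up, if_neg (by omega), ← add_assoc] at h1
  exact component_mem (isHomogeneous_pow (isHomogeneous_Iv _) _) h1 d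

/-- the general bound -/
theorem surplus_add (p : ℕ) [CharP k p] (hn : 2 ≤ n) (hv : ∀ i, v i ≠ 0) {μ : ι → ℕ}
    (hμ : ∃ i, 1 ≤ μ i) {r : ℕ} (hr : 1 ≤ r) {s : ℕ} (hs : 1 ≤ s)
    {F : MvPolynomial (Fin (n + 1)) k}
    (hmem : ∀ i, 1 ≤ μ i → F ∈ Iv (v i) ^ (r * (μ i + n - 1) + (s + (n - 2)))) :
    F ∈ idealOfVars (Fin (n + 1)) k ^ (s + (r + n - 1) / n) * (⨅ i, Iv (v i) ^ μ i) ^ r := by
  let ν : ι → ℕ := fun i => if μ i = 0 then 0 else r * (μ i + n - 1)
  have hν0 : ∀ i, 1 ≤ ν i → 1 ≤ μ i ∧ ν i = r * (μ i + n - 1) := by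
    intro i hi
    show 1 ≤ μ i ∧ (if μ i = 0 then 0 else r * (μ i + n - 1)) = r * (μ i + n - 1)
    by_cases h0 : μ i = 0
    · exfalso
      have h1 : ν i = 0 := if_pos h0
      omega
    · exact ⟨by omega, if_neg h0⟩
  have hν1 : ∀ i, 1 ≤ μ i → ν i = r * (μ i + n - 1) := fun i hi => if_neg (by omega)
  have hν : ∃ i, 1 ≤ ν i := by
    obtain ⟨i, hi⟩ := hμ
    refine ⟨i, ?_⟩
    rw [hν1 i hi]
    exact Nat.mul_pos hr (by omega)
  have h1 : F ∈ ⨅ i, Iv (v i) ^ up ν (s + (n - 2)) i := by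
    apply mem_iInf_of
    intro i hi
    obtain ⟨hi1, hi2⟩ := up_of_pos hi
    obtain ⟨hi3, hi4⟩ := hν0 i hi1
    rw [hi2, hi4]
    exact hmem i hi3
  have h2 := raise_all p hn hv hν hs h1
  have h3 : (⨅ i, Iv (v i) ^ ν i) ≤
      idealOfVars (Fin (n + 1)) k ^ ((r + n - 1) / n) * (⨅ i, Iv (v i) ^ μ i) ^ r := by
    intro G hG
    apply gap_frac' hn hv hμ hr
    intro i hi
    rw [Ideal.mem_iInf] at hG
    have h4 := hG i
    rwa [hν1 i hi] at h4
  have h4 := Ideal.mul_mono (le_refl (idealOfVars (Fin (n + 1)) k ^ s)) h3 h2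
  rwa [← mul_assoc, ← pow_add] at h4

end Pool.Agent.Lib.P5aaf1bX
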