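import Mathlib
import Pool.Agent.Lib.P5aaf1bX.Raise

/-!
# The gap over every field, degree by degree (MP_5aaf1b_ag)
-/

set_option autoImplicit false

namespace Pool.Agent.Lib.P5aaf1bX

open MvPolynomial Pool.Agent.Lib.Chud Pool.Agent.Lib.P5c592f Pool.Agent.Lib.P5aaf1b

universe u

/-- forms of degree `D` vanishing to order `r (μ_i + n - 1)` at fat points of `P^n` lie in
`𝔪^(D - r x) I^r` with `x = ⌊(n D - r) / (n r)⌋`, over every field -/
theorem gap_deg {k : Type u} [Field k] {n : ℕ} (hn : 2 ≤ n) {ι : Type*} [Fintype ι]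
    {v : ι → Fin (n + 1) → k} (hv : ∀ i, v i ≠ 0) {μ : ι → ℕ} (hμ : ∃ i, 1 ≤ μ i) {r D : ℕ}
    (hr : 1 ≤ r) {F : MvPolynomial (Fin (n + 1)) k} (hF : F.IsHomogeneous D)
    (hmem : ∀ i, 1 ≤ μ i → F ∈ Iv (v i) ^ (r * (μ i + n - 1))) :
    F ∈ idealOfVars (Fin (n + 1)) k ^ (D - r * ((n * D - r) / (n * r))) *
      (⨅ i, Iv (v i) ^ μ i) ^ r := by
  by_contra hnot
  obtain ⟨K, hKf, hKa, p, hp, hcp, w, -, hw, F', hF', hord', hnot'⟩ :=
    transfer_HH v hv μ (fun i => if μ i = 0 then 0 else r * (μ i + n - 1))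
      (D - r * ((n * D - r) / (n * r))) r D 0 (by simp) hF (fun i => by
        split_ifs with h
        · exact OrdGE.zero
        · exact (mem_Iv_iff_ordGE (hv i) hF).1 (hmem i (by omega))) hnot
  have : Fact p.Prime := ⟨hp⟩
  have hmem' : ∀ i, 1 ≤ μ i → F' ∈ Iv (w i) ^ (r * (μ i + n - 1)) := by
    intro i hi
    have h1 := hord' i
    rw [if_neg (by omega)] at h1
    exact (mem_Iv_iff_ordGE (hw i) hF').2 h1
  have hF'0 : F' ≠ 0 := by
    rintro rfl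
    exact hnot' (Ideal.zero_mem _)
  apply hnot'
  obtain ⟨i₀, hi₀⟩ := hμ
  have hDn : r * n ≤ D := by
    have h1 := (mem_Iv_pow_nord (hw i₀) hF' hF'0).1 (hmem' i₀ hi₀)
    have h2 := nord_le (hw i₀) hF' hF'0
    have h3 : r * n ≤ r * (μ i₀ + n - 1) := Nat.mul_le_mul_left _ (by omega)
    omega
  have hnr : 0 < n * r := Nat.mul_pos (by omega) hr
  have hrD : r ≤ n * D := by
    have h1 : r * 1 ≤ r * n := Nat.mul_le_mul_left _ (by omega)
    have h2 : 1 * D ≤ n * D := Nat.mul_le_mul_right _ (by omega)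
    omega
  obtain ⟨x, hx⟩ : ∃ x, x = (n * D - r) / (n * r) := ⟨_, rfl⟩
  have hx1 : n * r * x ≤ n * D - r := by
    rw [hx]
    exact Nat.mul_div_le _ _
  have hx2 : n * D - r < n * r * (x + 1) := by
    rw [hx]
    exact Nat.lt_mul_div_succ _ hnr
  rw [← hx]
  have h1 := charp_all_main p hn hw hr D (x + 1) μ ⟨i₀, hi₀⟩ F' hF' hmem' (by omega)
  apply mem_of_low_pow' (by omega) _ hF' h1
  rw [Nat.add_sub_cancel]
  have hle : r * x ≤ D := by
    have h2 : n * (r * x) ≤ n * D := by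
      have h3 : n * (r * x) = n * r * x := by ring
      omega
    exact Nat.le_of_mul_le_mul_left h2 (by omega)
  omega

/-- the plane: in degrees `D` with `2 (D mod r) < r` the exponent is at least `r` -/
theorem plane_deg {k : Type u} [Field k] {ι : Type*} [Fintype ι]
    {v : ι → Fin (2 + 1) → k} (hv : ∀ i, v i ≠ 0) {μ : ι → ℕ} (hμ : ∃ i, 1 ≤ μ i) {r D : ℕ}
    (hr : 1 ≤ r) (hD : 2 * (D % r) < r) {F : MvPolynomial (Fin (2 + 1)) k}
    (hF : F.IsHomogeneous D)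
    (hmem : ∀ i, 1 ≤ μ i → F ∈ Iv (v i) ^ (r * (μ i + 2 - 1))) :
    F ∈ idealOfVars (Fin (2 + 1)) k ^ r * (⨅ i, Iv (v i) ^ μ i) ^ r := by
  by_cases hF0 : F = 0
  · rw [hF0]; exact Ideal.zero_mem _
  have hDr : r ≤ D := by
    obtain ⟨i₀, hi₀⟩ := hμ
    have h1 := (mem_Iv_pow_nord (hv i₀) hF hF0).1 (hmem i₀ hi₀)
    have h2 := nord_le (hv i₀) hF hF0
    have h3 : r * 1 ≤ r * (μ i₀ + 2 - 1) := Nat.mul_le_mul_left _ (by omega)
    omega
  refine Ideal.mul_mono (Ideal.pow_le_pow_right ?_) le_rfl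
    (gap_deg le_rfl hv hμ hr hF hmem)
  have h1 : r * (D / r) + D % r = D := Nat.div_add_mod D r
  obtain ⟨q, hq⟩ : ∃ q, q = D / r := ⟨_, rfl⟩
  rw [← hq] at h1
  have hq1 : 1 ≤ q := by
    rw [hq]
    exact Nat.div_pos hDr (by omega)
  have h2 : (2 * D - r) / (2 * r) < q := by
    rw [Nat.div_lt_iff_lt_mul (by omega)]
    have h3 : q * (2 * r) = 2 * (r * q) := by ring
    omega
  have h4 : r * ((2 * D - r) / (2 * r) + 1) ≤ r * q := Nat.mul_le_mul_left _ h2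
  rw [mul_add, mul_one] at h4
  omega

/-- `r = 1`: no gap step is needed -/
theorem raise_one {k : Type u} [Field k] {n : ℕ} (hn : 2 ≤ n) {ι : Type*} [Fintype ι]
    {v : ι → Fin (n + 1) → k} (hv : ∀ i, v i ≠ 0) {μ : ι → ℕ} (hμ : ∃ i, 1 ≤ μ i)
    (h1 : ∀ i, μ i ≠ 1) :
    (⨅ i, Iv (v i) ^ (n * μ i)) ≤
      idealOfVars (Fin (n + 1)) k ^ (n - 1) * ⨅ i, Iv (v i) ^ μ i := by
  obtain ⟨p, hp⟩ := CharP.exists k
  refine le_trans ?_ (raise_all p hn hv hμ (s := n - 1) (by omega))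
  intro F hF
  rw [Ideal.mem_iInf] at hF
  apply mem_iInf_of
  intro i hi
  obtain ⟨hi1, hi2⟩ := up_of_pos hi
  rw [hi2]
  refine Ideal.pow_le_pow_right ?_ (hF i)
  obtain ⟨w, hw⟩ : ∃ w, μ i = w + 2 := ⟨μ i - 2, by have := h1 i; omega⟩
  obtain ⟨b, rfl⟩ : ∃ b, n = b + 2 := ⟨n - 2, by omega⟩
  rw [hw]
  have e : (b + 2) * (w + 2) = (w + 2) + (2 * b + 2) + (b + 1) * w := by ring
  rw [e]
  omega

end Pool.Agent.Lib.P5aaf1bX
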